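import Pool.Agent.MP_0946c8_al.Sweep

set_option autoImplicit false

namespace Pool.Agent.MP_0946c8_al

open Turing

variable {A R : Type}

/-- One step of a finite automaton with an integer counter. -/
def cstep (next : R → A → R) (c : R → A → ℤ) (p : R × ℤ) (a : A) : R × ℤ :=
  (next p.1 a, p.2 + c p.1 a)

def dirOf (x : ℤ) : Option Dir :=
  if x = 1 then some Dir.right else if x = -1 then some Dir.left else none

def modFin (B : ℕ) (t : ℤ) : Fin (B + 1) :=
  ⟨(t % (B + 1 : ℕ)).toNat, by
    have h1 := Int.emod_nonneg t (b := ((B + 1 : ℕ) : ℤ)) (by omega)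
    have h2 := Int.emod_lt_of_pos t (b := ((B + 1 : ℕ) : ℤ)) (by omega)
    omega⟩

open Classical in
/-- Two-tape machine simulating a one-counter automaton in real time. -/
noncomputable def counterTM (r0 : R) (next : R → A → R) (c : R → A → ℤ) (B : ℕ) :
    MultiTapeTM A (Option (Option A)) (Option ((R × Fin (B + 1)) ⊕ Bool)) 1 where
  enc a := some (some a)
  enc_injective a b h := by simpa using h
  enc_ne_blank a := by simp [default]
  start := none
  answer q := q.bind (Sum.elim (fun _ => none) some)
  trans q h :=
    match q, h 0 with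
    | none, _ => (some (Sum.inl (r0, 0)), ![(h 0, none), (some none, none)])
    | some (Sum.inl p), some (some a) =>
        (some (Sum.inl (next p.1 a, modFin B (p.2 + c p.1 a))),
          ![(h 0, some Dir.right), (h 1, dirOf ((p.2 + c p.1 a) / (B + 1 : ℕ)))])
    | some (Sum.inl p), _ =>
        (some (Sum.inr (decide (p.1 = r0 ∧ p.2 = 0 ∧ h 1 = some none))), fun i => (h i, none))
    | some (Sum.inr b), _ => (some (Sum.inr b), fun i => (h i, none))

def Marked (T : Tape (Option (Option A))) (pos : ℤ) : Prop :=
  ∀ j : ℤ, T.nth j = if j + pos = 0 then some none else none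

theorem Marked.act {T : Tape (Option (Option A))} {pos x : ℤ} (h : Marked T pos)
    (hx : -1 ≤ x ∧ x ≤ 1) : Marked (act (T.head, dirOf x) T) (pos + x) := by
  intro j
  have : x = 1 ∨ x = -1 ∨ x = 0 := by omega
  rcases this with rfl | rfl | rfl
  · simp only [MP_0946c8_al.act, dirOf, if_true, Option.elim, Tape.write_self,
      Tape.move_right_nth, h (j + 1)]
    congr 1
    ring_nf
  · have e : dirOf (-1) = some Dir.left := rfl
    simp only [MP_0946c8_al.act, e, Option.elim, Tape.write_self, Tape.move_left_nth, h (j - 1)]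
    congr 1
    ring_nf
  · have e : dirOf 0 = none := rfl
    simp only [MP_0946c8_al.act, e, Option.elim, Tape.write_self, h j, add_zero]

variable (r0 : R) (next : R → A → R) (c : R → A → ℤ) (B : ℕ)

theorem counter_run (hB : ∀ r a, |c r a| ≤ B) (l : List A) :
    ∀ (r : R) (ρ : Fin (B + 1)) (L : ListBlank (Option (Option A)))
      (T : Tape (Option (Option A))) (pos : ℤ), Marked T pos →
      ∃ (r' : R) (ρ' : Fin (B + 1)) (L' : ListBlank (Option (Option A)))
        (T' : Tape (Option (Option A))) (pos' : ℤ), Marked T' pos' ∧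
        (r', (B + 1 : ℕ) * pos' + ρ') = l.foldl (cstep next c) (r, (B + 1 : ℕ) * pos + ρ) ∧
        Reach (counterTM r0 next c B)
          (some (Sum.inl (r, ρ)), ![Tape.mk' L (ListBlank.mk (l.map (fun a => some (some a)))), T])
          (some (Sum.inl (r', ρ')), ![Tape.mk' L' (ListBlank.mk []), T']) l.length := by
  induction l with
  | nil =>
    intro r ρ L T pos h
    exact ⟨r, ρ, L, T, pos, h, rfl, Reach.refl _ _⟩
  | cons a l ih =>
    intro r ρ L T pos h
    have hx : -1 ≤ ((ρ : ℤ) + c r a) / (B + 1 : ℕ) ∧ ((ρ : ℤ) + c r a) / (B + 1 : ℕ) ≤ 1 := by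
      have h1 := abs_le.mp (hB r a)
      have h2 := ρ.2
      constructor
      · rw [Int.le_ediv_iff_mul_le (by omega)]
        omega
      · apply Int.le_of_lt_add_one
        rw [Int.ediv_lt_iff_lt_mul (by omega)]
        omega
    obtain ⟨r', ρ', L', T', pos', h1, h2, h3⟩ := ih (next r a) (modFin B (ρ + c r a))
      (L.cons (some (some a))) _ _ (h.act hx)
    refine ⟨r', ρ', L', T', pos', h1, ?_, ?_⟩
    · rw [h2, List.foldl_cons]
      congr 1
      simp only [cstep, modFin, Prod.mk.injEq, true_and]
      have e1 := Int.emod_nonneg ((ρ : ℤ) + c r a) (b := ((B + 1 : ℕ) : ℤ)) (by omega)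
      have e2 := Int.mul_ediv_add_emod ((ρ : ℤ) + c r a) ((B + 1 : ℕ) : ℤ)
      rw [Int.toNat_of_nonneg e1]
      linear_combination e2
    · have h0 : Reach (counterTM r0 next c B)
          (some (Sum.inl (r, ρ)),
            ![Tape.mk' L (ListBlank.mk ((a :: l).map (fun a => some (some a)))), T])
          (some (Sum.inl (next r a, modFin B (ρ + c r a))),
            ![Tape.mk' (L.cons (some (some a))) (ListBlank.mk (l.map (fun a => some (some a)))),
              act (T.head, dirOf (((ρ : ℤ) + c r a) / (B + 1 : ℕ))) T]) 1 := by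
        apply Reach.single rfl
        refine Prod.ext ?_ ?_
        · simp [MultiTapeTM.step, counterTM]
        · funext i
          fin_cases i <;> simp [MultiTapeTM.step, counterTM, act]
      have h4 := h0.trans h3
      rw [add_comm 1 l.length] at h4
      exact h4

theorem counter_halts (hB : ∀ r a, |c r a| ≤ B) (w : List A) :
    ∃ b, (counterTM r0 next c B).HaltsAt w (w.length + 2) b ∧
      (b = true ↔ w.foldl (cstep next c) (r0, 0) = (r0, 0)) := by
  classical
  have hm : Marked ((Tape.mk₁ ([] : List (Option (Option A)))).write (some none)) 0 := by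
    intro j
    rw [Tape.write_nth, add_zero]
    split_ifs
    · rfl
    · rcases j with (_ | j) | j <;> rfl
  obtain ⟨r', ρ', L', T', pos', h1, h2, h3⟩ :=
    counter_run r0 next c B hB w r0 0 (ListBlank.mk []) _ 0 hm
  have h0 : Reach (counterTM r0 next c B) ((counterTM r0 next c B).init w)
      (some (Sum.inl (r0, 0)),
        ![Tape.mk' (ListBlank.mk []) (ListBlank.mk (w.map (fun a => some (some a)))),
          (Tape.mk₁ ([] : List (Option (Option A)))).write (some none)]) 1 := by
    apply Reach.single rfl
    refine Prod.ext ?_ ?_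
    · simp [MultiTapeTM.step, counterTM, MultiTapeTM.init]
    · funext i
      fin_cases i
      · exact Tape.write_self _
      · simp [MultiTapeTM.step, counterTM, act, MultiTapeTM.init, Tape.mk₁, Tape.mk₂]
  have h4 : Reach (counterTM r0 next c B)
      (some (Sum.inl (r', ρ')), ![Tape.mk' L' (ListBlank.mk []), T'])
      (some (Sum.inr (decide (r' = r0 ∧ ρ' = 0 ∧ T'.head = some none))),
        ![Tape.mk' L' (ListBlank.mk []), T']) 1 := by
    apply Reach.single rfl
    have e : (Tape.mk' L' (ListBlank.mk [])).head = none := rfl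
    refine Prod.ext ?_ ?_
    · simp [MultiTapeTM.step, counterTM, default]
    · funext i
      fin_cases i
      · simp only [MultiTapeTM.step, counterTM, act, Matrix.cons_val_zero, e, Option.elim]
        exact Tape.write_self _
      · simp only [MultiTapeTM.step, counterTM, act, Matrix.cons_val_zero, e, Option.elim]
        exact Tape.write_self _
  have h5 := (h0.trans h3).trans h4
  rw [show 1 + w.length + 1 = w.length + 2 by ring] at h5
  refine ⟨_, h5.haltsAt rfl, ?_⟩
  have h6 := h1 0
  rw [Tape.nth_zero, zero_add] at h6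
  simp only [Fin.val_zero, Nat.cast_zero, mul_zero, add_zero] at h2
  rw [← h2, decide_eq_true_iff, h6, Prod.mk.injEq]
  have h7 := ρ'.2
  constructor
  · rintro ⟨e1, e2, e3⟩
    have : pos' = 0 := by
      by_contra hne
      simp [hne] at e3
    simp [e1, e2, this]
  · rintro ⟨e1, e2⟩
    have e3 : pos' = 0 := by
      rcases lt_trichotomy pos' 0 with h | h | h
      · push_cast at e2; nlinarith
      · exact h
      · push_cast at e2; nlinarith
    rw [e3] at e2
    refine ⟨e1, Fin.ext (by simpa using e2), by simp [e3]⟩

end Pool.Agent.MP_0946c8_al
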