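import Mathlib

set_option autoImplicit false

namespace Pool.Agent.MP_0946c8_al

/-- A deterministic Turing machine with `k + 1` tapes, input alphabet `A`, tape alphabet `Γ`
(blank symbol `default`) and state set `Q`.  A state `q` is halting when `answer q = some b`.
The transition function reads the state and the scanned symbols and returns the new state and,
for every tape, the symbol to write and the move of the head (`none` means stay). -/
structure MultiTapeTM (A Γ Q : Type) [Inhabited Γ] (k : ℕ) where
  enc : A → Γ
  enc_injective : Function.Injective enc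
  enc_ne_blank : ∀ a, enc a ≠ default
  start : Q
  answer : Q → Option Bool
  trans : Q → (Fin (k + 1) → Γ) → Q × (Fin (k + 1) → Γ × Option Turing.Dir)

/-- Write a symbol under the head, then move the head or stay. -/
def act {Γ : Type} [Inhabited Γ] (p : Γ × Option Turing.Dir) (T : Turing.Tape Γ) :
    Turing.Tape Γ :=
  p.2.elim (T.write p.1) (fun d => (T.write p.1).move d)

/-- One step of the machine on a configuration (state, tapes). -/
def MultiTapeTM.step {A Γ Q : Type} [Inhabited Γ] {k : ℕ} (M : MultiTapeTM A Γ Q k)
    (c : Q × (Fin (k + 1) → Turing.Tape Γ)) : Q × (Fin (k + 1) → Turing.Tape Γ) :=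
  ((M.trans c.1 (fun j => (c.2 j).head)).1,
    fun i => act ((M.trans c.1 (fun j => (c.2 j).head)).2 i) (c.2 i))

/-- Initial configuration: the input is on tape `0` under and to the right of the head,
all other cells are blank. -/
def MultiTapeTM.init {A Γ Q : Type} [Inhabited Γ] {k : ℕ} (M : MultiTapeTM A Γ Q k)
    (w : List A) : Q × (Fin (k + 1) → Turing.Tape Γ) :=
  (M.start, fun i => if i = 0 then Turing.Tape.mk₁ (w.map M.enc) else Turing.Tape.mk₁ [])

/-- On input `w` the machine reaches a halting state for the first time after exactly `t` steps,
and its answer is `b`. -/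
def MultiTapeTM.HaltsAt {A Γ Q : Type} [Inhabited Γ] {k : ℕ} (M : MultiTapeTM A Γ Q k)
    (w : List A) (t : ℕ) (b : Bool) : Prop :=
  M.answer (M.step^[t] (M.init w)).1 = some b ∧
    ∀ s < t, M.answer (M.step^[s] (M.init w)).1 = none

end Pool.Agent.MP_0946c8_al
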