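import Pool.Agent.MP_0946c8_al.Sweep

set_option autoImplicit false

namespace Pool.Agent.MP_0946c8_al

open Finset

variable {A D E : Type} [Fintype D]

/-- The linear map attached to the letter `a`. -/
def lin (L : A → D → D → ℕ) (a : A) (v : D → ℕ) : D → ℕ := fun d => ∑ e, L a d e * v e

/-- Value computed from the start vector `v` along a list of letters with carries. -/
def Val (L : A → D → D → ℕ) {B : ℕ} : (D → ℕ) → List (A × (D → Fin (B + 1))) → D → ℕ
  | v, [] => v
  | v, x :: l => Val L (fun d => lin L x.1 v d + x.2 d) l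

/-- All intermediate values are at most `M`. -/
def Small (L : A → D → D → ℕ) {B : ℕ} (M : ℕ) : (D → ℕ) → List (A × (D → Fin (B + 1))) → Prop
  | _, [] => True
  | v, x :: l => (∀ d, lin L x.1 v d + x.2 d ≤ M) ∧ Small L M (fun d => lin L x.1 v d + x.2 d) l

/-- The digit transducer. -/
def dtr (L : A → D → D → ℕ) (l B : ℕ) (s : (D → Fin (l + 1)) × Bool) (a : A)
    (c : D → Fin (B + 1)) : ((D → Fin (l + 1)) × Bool) × (D → Fin (B + 1)) :=
  ((fun d => Fin.ofNat (l + 1) (lin L a (fun e => s.1 e) d + c d),
    s.2 && decide (∀ d, (lin L a (fun e => s.1 e) d + c d) / (l + 1) = 0)),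
    fun d => Fin.ofNat (B + 1) ((lin L a (fun e => s.1 e) d + c d) / (l + 1)))

variable (L : A → D → D → ℕ) (l B : ℕ)

theorem lin_le (hB : ∀ a d, ∑ e, L a d e ≤ B) (a : A) (v : D → ℕ) (K : ℕ) (hv : ∀ e, v e ≤ K)
    (d : D) : lin L a v d ≤ B * K := by
  calc lin L a v d ≤ ∑ e, L a d e * K :=
        Finset.sum_le_sum fun e _ => Nat.mul_le_mul_left _ (hv e)
    _ = (∑ e, L a d e) * K := by rw [Finset.sum_mul]
    _ ≤ B * K := Nat.mul_le_mul_right _ (hB a d)

theorem dtr_carry (hB : ∀ a d, ∑ e, L a d e ≤ B) (s : (D → Fin (l + 1)) × Bool) (a : A)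
    (c : D → Fin (B + 1)) (d : D) :
    ((dtr L l B s a c).2 d : ℕ) = (lin L a (fun e => s.1 e) d + c d) / (l + 1) := by
  simp only [dtr, Fin.val_ofNat]
  apply Nat.mod_eq_of_lt
  have h1 := lin_le L B hB a (fun e => s.1 e) l (fun e => Nat.lt_succ_iff.mp (s.1 e).2) d
  have h2 := (c d).2
  rw [Nat.div_lt_iff_lt_mul (by omega)]
  nlinarith

theorem dtr_step (hB : ∀ a d, ∑ e, L a d e ≤ B) (s : (D → Fin (l + 1)) × Bool) (a : A)
    (c : D → Fin (B + 1)) (y : D → ℕ) :
    (fun d => lin L a (fun e => s.1 e + (l + 1) * y e) d + c d) =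
      fun d => (dtr L l B s a c).1.1 d + (l + 1) * (lin L a y d + (dtr L l B s a c).2 d) := by
  funext d
  rw [dtr_carry L l B hB]
  have h1 : lin L a (fun e => s.1 e + (l + 1) * y e) d =
      lin L a (fun e => s.1 e) d + (l + 1) * lin L a y d := by
    simp only [lin, Finset.mul_sum, ← Finset.sum_add_distrib]
    exact Finset.sum_congr rfl fun e _ => by ring
  have h2 := Nat.mod_add_div (lin L a (fun e => s.1 e) d + c d) (l + 1)
  simp only [dtr, Fin.val_ofNat]
  rw [h1, mul_add]
  omega

theorem pass_val (hB : ∀ a d, ∑ e, L a d e ≤ B) (lst : List (A × (D → Fin (B + 1)))) :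
    ∀ (s : (D → Fin (l + 1)) × Bool) (y : D → ℕ),
      Val L (fun e => s.1 e + (l + 1) * y e) lst =
        fun d => (pass (dtr L l B) s lst).1.1 d + (l + 1) * Val L y (pass (dtr L l B) s lst).2 d := by
  induction lst with
  | nil => intro s y; rfl
  | cons x lst ih =>
    intro s y
    simp only [Val, pass]
    rw [dtr_step L l B hB, ih]

theorem pass_small (hB : ∀ a d, ∑ e, L a d e ≤ B) (M : ℕ)
    (lst : List (A × (D → Fin (B + 1)))) :
    ∀ (s : (D → Fin (l + 1)) × Bool) (y : D → ℕ),
      Small L M (fun e => s.1 e + (l + 1) * y e) lst →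
        Small L (M / (l + 1)) y (pass (dtr L l B) s lst).2 := by
  induction lst with
  | nil => intro s y _; trivial
  | cons x lst ih =>
    intro s y h
    simp only [Small, pass] at h ⊢
    have e := dtr_step L l B hB s x.1 x.2 y
    refine ⟨fun d => ?_, ih _ _ (e ▸ h.2)⟩
    have h1 := h.1 d
    rw [congrFun e d] at h1
    rw [Nat.le_div_iff_mul_le (by omega)]
    nlinarith

theorem pass_flag (hB : ∀ a d, ∑ e, L a d e ≤ B) (lst : List (A × (D → Fin (B + 1)))) :
    ∀ (s : (D → Fin (l + 1)) × Bool), (pass (dtr L l B) s lst).1.2 = true ↔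
      s.2 = true ∧ ∀ x ∈ (pass (dtr L l B) s lst).2, ∀ d, (x.2 d : ℕ) = 0 := by
  induction lst with
  | nil => intro s; simp [pass]
  | cons x lst ih =>
    intro s
    simp only [pass, List.forall_mem_cons, ih, dtr_carry L l B hB]
    simp only [dtr, Bool.and_eq_true, decide_eq_true_iff, and_assoc]

theorem small_zero (lst : List (A × (D → Fin (B + 1)))) :
    ∀ v, Small L 0 v lst → ∀ x ∈ lst, ∀ d, (x.2 d : ℕ) = 0 := by
  induction lst with
  | nil => intro v _ x hx; simp at hx
  | cons y lst ih =>
    intro v h x hx d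
    rcases List.mem_cons.mp hx with rfl | hx
    · have := h.1 d; omega
    · exact ih _ h.2 x hx d

theorem val_zero (lst : List (A × (D → Fin (B + 1)))) (h : ∀ x ∈ lst, ∀ d, (x.2 d : ℕ) = 0) :
    Val L (fun _ => 0) lst = fun _ => 0 := by
  induction lst with
  | nil => rfl
  | cons y lst ih =>
    simp only [Val]
    have : (fun d => lin L y.1 (fun _ => 0) d + y.2 d) = fun _ => 0 := by
      funext d
      simp [lin, h y (List.mem_cons_self) d]
    rw [this]
    exact ih fun x hx => h x (List.mem_cons_of_mem _ hx)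

theorem val_init (w : List A) : ∀ v : D → ℕ,
    Val L v (w.map (·, (0 : D → Fin (B + 1)))) = w.foldl (fun u a => lin L a u) v := by
  induction w with
  | nil => intro v; rfl
  | cons a w ih => intro v; simp [Val, ih]

theorem small_init (hB : ∀ a d, ∑ e, L a d e ≤ B) (M : ℕ) (w : List A) :
    ∀ (v : D → ℕ) (K : ℕ), (∀ d, v d ≤ K) → K * (B + 1) ^ w.length ≤ M →
      Small L M v (w.map (·, (0 : D → Fin (B + 1)))) := by
  induction w with
  | nil => intro v K _ _; trivial
  | cons a w ih =>
    intro v K hv hK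
    simp only [List.map_cons, Small, Pi.zero_apply, Fin.val_zero, add_zero]
    have h1 : ∀ d, lin L a v d ≤ K * (B + 1) := fun d => by
      have := lin_le L B hB a v K hv d
      nlinarith
    rw [List.length_cons, pow_succ'] at hK
    have h2 : 1 ≤ (B + 1) ^ w.length := Nat.one_le_pow _ _ (by omega)
    exact ⟨fun d => (h1 d).trans (by nlinarith), ih _ _ h1 (by rw [mul_assoc]; exact hK)⟩

open Classical in
/-- The decision taken at the end of a pass. -/
noncomputable def dout (α β : E → D) (s : (D → Fin (l + 1)) × Bool) : Option Bool :=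
  if ∀ e, s.1 (α e) = s.1 (β e) then (if s.2 then some true else none) else some false

open Classical in
theorem digit_machine (hB : ∀ a d, ∑ e, L a d e ≤ B) (hl : 1 ≤ l) (v0 : D → Fin (l + 1))
    (α β : E → D) (w : List A) :
    ∃ (t : ℕ) (b : Bool),
      (sweepTM (0 : D → Fin (B + 1)) (v0, true) (0, true) (dtr L l B) (dout l α β)).HaltsAt w t b ∧
      (b = true ↔ ∀ e, w.foldl (fun u a => lin L a u) (fun d => v0 d) (α e) =
        w.foldl (fun u a => lin L a u) (fun d => v0 d) (β e)) ∧
      t ≤ (2 * w.length + 2) * ((range (B * w.length + 1)).filter (fun k => ∀ e,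
        w.foldl (fun u a => lin L a u) (fun d => v0 d) (α e) ≡
          w.foldl (fun u a => lin L a u) (fun d => v0 d) (β e) [MOD (l + 1) ^ k])).card := by
  set V := w.foldl (fun u a => lin L a u) (fun d => (v0 d : ℕ)) with hV
  let st := stage (dtr L l B) (v0, true) (0, true) (w.map (·, (0 : D → Fin (B + 1))))
  let fin := fun i => (pass (dtr L l B) (st i).1 (st i).2).1
  have hst : ∀ i, st (i + 1) = ((0, true), (pass (dtr L l B) (st i).1 (st i).2).2) := fun i => rfl
  have hflag : ∀ i, (st i).1.2 = true := by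
    intro i; cases i <;> rfl
  have hrec : ∀ i d, Val L (fun e => ((st i).1.1 e : ℕ)) (st i).2 d =
      (fin i).1 d + (l + 1) * Val L (fun e => ((st (i + 1)).1.1 e : ℕ)) (st (i + 1)).2 d := by
    intro i d
    have := congrFun (pass_val L l B hB (st i).2 (st i).1 (fun _ => 0)) d
    simpa [hst] using this
  have hval : ∀ i d, Val L (fun e => ((st i).1.1 e : ℕ)) (st i).2 d = V d / (l + 1) ^ i := by
    intro i
    induction i with
    | zero =>
      intro d
      rw [pow_zero, Nat.div_one, hV, ← val_init L B]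
      rfl
    | succ i ih =>
      intro d
      rw [pow_succ, ← Nat.div_div_eq_div_mul, ← ih, hrec i, Nat.add_mul_div_left _ _ (Nat.succ_pos l),
        Nat.div_eq_of_lt ((fin i).1 d).2, zero_add]
  have hdig : ∀ i d, ((fin i).1 d : ℕ) = V d / (l + 1) ^ i % (l + 1) := by
    intro i d
    rw [← hval, hrec, Nat.add_mul_mod_self_left, Nat.mod_eq_of_lt ((fin i).1 d).2]
  have hsmall : ∀ i, Small L (l * (B + 1) ^ w.length / (l + 1) ^ i)
      (fun e => ((st i).1.1 e : ℕ)) (st i).2 := by
    intro i
    induction i with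
    | zero =>
      rw [pow_zero, Nat.div_one]
      exact small_init L B hB _ w _ l (fun d => Nat.lt_succ_iff.mp (v0 d).2) le_rfl
    | succ i ih =>
      rw [pow_succ, ← Nat.div_div_eq_div_mul]
      have := pass_small L l B hB _ (st i).2 (st i).1 (fun _ => 0) (by simpa using ih)
      simpa [hst] using this
  have hterm : (fin (B * w.length)).2 = true := by
    have h1 := hsmall (B * w.length + 1)
    have h2 : l * (B + 1) ^ w.length / (l + 1) ^ (B * w.length + 1) = 0 := by
      apply Nat.div_eq_of_lt
      have a1 : B + 1 ≤ (l + 1) ^ B :=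
        le_trans Nat.lt_two_pow_self (Nat.pow_le_pow_left (by omega) B)
      have a2 : (B + 1) ^ w.length ≤ (l + 1) ^ (B * w.length) := by
        rw [pow_mul]; exact Nat.pow_le_pow_left a1 _
      have a3 : 1 ≤ (l + 1) ^ (B * w.length) := Nat.one_le_pow _ _ (by omega)
      rw [pow_succ]
      nlinarith
    rw [h2] at h1
    exact (pass_flag L l B hB _ _).mpr ⟨hflag _, small_zero L B _ _ h1⟩
  have hex : ∃ i, dout l α β (fin i) ≠ none := by
    refine ⟨B * w.length, ?_⟩
    simp only [dout, hterm]
    split_ifs <;> simp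
  let p := Nat.find hex
  have hp1 : dout l α β (fin p) ≠ none := Nat.find_spec hex
  have hp2 : ∀ i < p, dout l α β (fin i) = none := fun i hi => by
    simpa using Nat.find_min hex hi
  have hp3 : p ≤ B * w.length := by
    apply Nat.find_min'
    simp only [dout, hterm]
    split_ifs <;> simp
  have hchk : ∀ i < p, ∀ e, (fin i).1 (α e) = (fin i).1 (β e) := by
    intro i hi
    have := hp2 i hi
    by_contra hne
    simp only [dout, if_neg hne] at this
    simp at this
  have heq : ∀ k, (∀ i < k, ∀ e, (fin i).1 (α e) = (fin i).1 (β e)) →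
      ∀ e, V (α e) ≡ V (β e) [MOD (l + 1) ^ k] := by
    intro k
    induction k with
    | zero => intro _ e; simp [Nat.modEq_one]
    | succ k ih =>
      intro h e
      have h1 := ih (fun i hi => h i (by omega)) e
      have h2 := congrArg Fin.val (h k (by omega) e)
      rw [hdig, hdig] at h2
      unfold Nat.ModEq at h1 ⊢
      rw [Nat.mod_pow_succ, Nat.mod_pow_succ, h1, h2]
  obtain ⟨b, hb⟩ := Option.ne_none_iff_exists'.mp hp1
  refine ⟨_, b, sweep_halts _ _ _ _ _ w p b hp2 hb, ?_, ?_⟩
  · by_cases hc : ∀ e, (fin p).1 (α e) = (fin p).1 (β e)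
    · simp only [dout, if_pos hc] at hb
      have hf : (fin p).2 = true := by
        by_contra hf
        simp [hf] at hb
      have hb' : b = true := by simpa [hf] using hb.symm
      refine ⟨fun _ e => ?_, fun _ => hb'⟩
      have h1 := heq (p + 1) (fun i hi => by
        rcases Nat.lt_succ_iff_lt_or_eq.mp hi with h | h
        · exact hchk i h
        · rw [h]; exact hc) e
      have h2 : ∀ d, V d / (l + 1) ^ (p + 1) = 0 := by
        intro d
        rw [← hval, hst]
        have := val_zero L B _ ((pass_flag L l B hB (st p).2 (st p).1).mp hf).2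
        simpa using congrFun this d
      have hpos : 0 < (l + 1) ^ (p + 1) := by positivity
      exact Nat.ModEq.eq_of_lt_of_lt h1 ((Nat.div_eq_zero_iff_lt hpos).mp (h2 _))
        ((Nat.div_eq_zero_iff_lt hpos).mp (h2 _))
    · simp only [dout, if_neg hc] at hb
      have hb' : b = false := by simpa using hb.symm
      refine ⟨fun h => by simp [hb'] at h, fun h => (hc fun e => Fin.ext ?_).elim⟩
      rw [hdig, hdig, h e]
  · have h1 : p + 1 ≤ ((range (B * w.length + 1)).filter (fun k => ∀ e,
        V (α e) ≡ V (β e) [MOD (l + 1) ^ k])).card := by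
      rw [← Finset.card_range (p + 1)]
      apply Finset.card_le_card
      intro k hk
      rw [Finset.mem_range] at hk
      refine Finset.mem_filter.mpr ⟨Finset.mem_range.mpr (by omega), ?_⟩
      exact heq k fun i hi => hchk i (by omega)
    calc p * (2 * w.length + 2) + w.length + 1 ≤ (2 * w.length + 2) * (p + 1) := by nlinarith
      _ ≤ _ := Nat.mul_le_mul_left _ h1

end Pool.Agent.MP_0946c8_al
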