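import Pool.Agent.MP_0946c8_al.Counter

set_option autoImplicit false

namespace Pool.Agent.MP_0946c8_al

variable {G A : Type} [Group G]

/-- The right coset of `x` modulo the cyclic subgroup generated by `z`. -/
def cls (z x : G) : Quotient (QuotientGroup.rightRel (Subgroup.zpowers z)) := Quotient.mk _ x

theorem cls_eq_iff (z x y : G) : cls z x = cls z y ↔ ∃ k : ℤ, x = z ^ k * y := by
  rw [eq_comm, cls, cls, Quotient.eq]
  rw [QuotientGroup.rightRel_apply, Subgroup.mem_zpowers_iff]
  exact exists_congr fun k => by rw [eq_comm, mul_inv_eq_iff_eq_mul]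

theorem cls_mul_right (z x y g : G) : cls z (x * g) = cls z (y * g) ↔ cls z x = cls z y := by
  simp only [cls_eq_iff, ← mul_assoc, mul_left_inj]

theorem automaton_of_finite (γ : A → G) (h : (Set.range fun w : List A => (w.map γ).prod).Finite) :
    ∃ (R : Type) (_ : Finite R) (r0 : R) (next : R → A → R) (c : R → A → ℤ),
      ∀ w : List A, w.foldl (cstep next c) (r0, 0) = (r0, 0) ↔ (w.map γ).prod = 1 := by
  let R := Set.range fun w : List A => (w.map γ).prod
  let next : R → A → R := fun r a => ⟨r.1 * γ a, by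
    obtain ⟨w, hw⟩ := r.2
    exact ⟨w ++ [a], by simp [← hw]⟩⟩
  refine ⟨R, h, ⟨1, [], rfl⟩, next, fun _ _ => 0, ?_⟩
  have key : ∀ (w : List A) (r : R), (w.foldl (cstep next fun _ _ => 0) (r, 0)).2 = 0 ∧
      (w.foldl (cstep next fun _ _ => 0) (r, 0)).1.1 = r.1 * (w.map γ).prod := by
    intro w
    induction w with
    | nil => intro r; simp
    | cons a w ih =>
      intro r
      have := ih (next r a)
      simpa [cstep, next, mul_assoc] using this
  intro w
  have := key w ⟨1, [], rfl⟩
  rw [Prod.ext_iff, Subtype.ext_iff, this.1, this.2]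
  simp

theorem automaton_of_finite_cosets (γ : A → G) (z : G) (hz : ¬ IsOfFinOrder z)
    (h : (Set.range fun w : List A => cls z (w.map γ).prod).Finite) :
    ∃ (R : Type) (_ : Finite R) (r0 : R) (next : R → A → R) (c : R → A → ℤ),
      ∀ w : List A, w.foldl (cstep next c) (r0, 0) = (r0, 0) ↔ (w.map γ).prod = 1 := by
  classical
  let R := Set.range fun w : List A => cls z (w.map γ).prod
  let r0 : R := ⟨cls z 1, [], rfl⟩
  have hrep : ∀ r : R, ∃ w : List A, cls z (w.map γ).prod = r.1 ∧ (r = r0 → w = []) := by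
    intro r
    by_cases hr : r = r0
    · exact ⟨[], by rw [hr]; rfl, fun _ => rfl⟩
    · obtain ⟨w, hw⟩ := r.2
      exact ⟨w, hw, fun e => (hr e).elim⟩
  choose rep hrep1 hrep2 using hrep
  let next : R → A → R := fun r a => ⟨cls z ((rep r ++ [a]).map γ).prod, _, rfl⟩
  have hc : ∀ (r : R) (a : A), ∃ k : ℤ,
      ((rep r).map γ).prod * γ a = z ^ k * ((rep (next r a)).map γ).prod := by
    intro r a
    rw [← cls_eq_iff, hrep1]
    simp [next]
  choose c hc using hc
  refine ⟨R, h, r0, next, c, ?_⟩
  have key : ∀ (w : List A) (p : R × ℤ), z ^ p.2 * ((rep p.1).map γ).prod * (w.map γ).prod =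
      z ^ (w.foldl (cstep next c) p).2 * ((rep (w.foldl (cstep next c) p).1).map γ).prod := by
    intro w
    induction w with
    | nil => intro p; simp
    | cons a w ih =>
      intro p
      rw [List.foldl_cons, ← ih]
      simp only [cstep, List.map_cons, List.prod_cons, zpow_add, ← mul_assoc]
      rw [mul_assoc (z ^ p.2) _ (γ a), hc, ← mul_assoc]
  intro w
  have h1 := key w (r0, 0)
  have h0 : rep r0 = [] := hrep2 r0 rfl
  simp only [h0, zpow_zero, List.map_nil, List.prod_nil, one_mul] at h1
  constructor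
  · intro e
    rw [h1, e]
    simp [h0]
  · intro e
    rw [e] at h1
    have h2 : (w.foldl (cstep next c) (r0, 0)).1 = r0 := by
      apply Subtype.ext
      rw [← hrep1, eq_comm]
      exact (cls_eq_iff _ _ _).mpr ⟨_, h1⟩
    rw [h2, h0] at h1
    have h3 : (w.foldl (cstep next c) (r0, 0)).2 = 0 := by
      apply injective_zpow_iff_not_isOfFinOrder.mpr hz
      simpa using h1.symm
    exact Prod.ext h2 h3

theorem exists_coset_reps (γ : A → G) (z : G)
    (h : (Set.range fun w : List A => cls z (w.map γ).prod).Infinite) (n : ℕ) :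
    ∃ W : Finset (List A), W.card = n ∧ (∀ w ∈ W, w.length ≤ n) ∧
      Set.InjOn (fun w : List A => cls z (w.map γ).prod) W := by
  classical
  induction n with
  | zero => exact ⟨∅, rfl, by simp, by simp⟩
  | succ n ih =>
    obtain ⟨W, h1, h2, h3⟩ := ih
    have hex : ∃ w : List A, w.length ≤ n + 1 ∧
        ∀ u ∈ W, cls z (u.map γ).prod ≠ cls z (w.map γ).prod := by
      by_contra hcon
      push Not at hcon
      apply h
      apply Set.Finite.subset (W.finite_toSet.image (fun w : List A => cls z (w.map γ).prod))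
      rintro _ ⟨w, rfl⟩
      induction w using List.reverseRecOn with
      | nil => exact hcon [] (by simp)
      | append_singleton w a ihw =>
        obtain ⟨u, hu, e⟩ := ihw
        obtain ⟨v, hv, e'⟩ := hcon (u ++ [a]) (by have := h2 u hu; simp; omega)
        refine ⟨v, hv, e'.trans ?_⟩
        simp only [List.map_append, List.prod_append, List.map_singleton, List.prod_singleton]
        exact (cls_mul_right _ _ _ _).mpr e
    obtain ⟨w, hw1, hw2⟩ := hex
    have hwW : w ∉ W := fun hw => hw2 w hw rfl
    refine ⟨insert w W, by rw [Finset.card_insert_of_notMem hwW, h1], ?_, ?_⟩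
    · intro u hu
      rcases Finset.mem_insert.mp hu with rfl | hu
      · exact hw1
      · exact (h2 u hu).trans (Nat.le_succ n)
    · rw [Finset.coe_insert, Set.injOn_insert (by simpa using hwW)]
      refine ⟨h3, ?_⟩
      rintro ⟨u, hu, e⟩
      exact hw2 u hu e

theorem exists_even_reps (γ : A → G) (a0 : A) (z : G)
    (h : (Set.range fun w : List A => cls z (w.map γ).prod).Infinite) (r : ℕ) :
    ∃ W : Finset (List A), r ≤ W.card ∧ (∀ w ∈ W, ∃ s ≤ r, w.length = 2 * s) ∧
      Set.InjOn (fun w : List A => cls z (w.map γ).prod) W := by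
  classical
  obtain ⟨W, h1, h2, h3⟩ := exists_coset_reps γ z h (2 * r)
  have h4 := Finset.card_filter_add_card_filter_not (s := W) (fun w => w.length % 2 = 0)
  by_cases hc : r ≤ (W.filter (fun w => w.length % 2 = 0)).card
  · refine ⟨_, hc, ?_, h3.mono (Finset.coe_subset.mpr (Finset.filter_subset _ _))⟩
    intro w hw
    have := h2 w (Finset.mem_filter.mp hw).1
    have := (Finset.mem_filter.mp hw).2
    exact ⟨w.length / 2, by omega, by omega⟩
  · refine ⟨(W.filter (fun w => ¬ w.length % 2 = 0)).image (· ++ [a0]), ?_, ?_, ?_⟩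
    · rw [Finset.card_image_of_injective _ (fun u v e => List.append_cancel_right e)]
      omega
    · intro w hw
      obtain ⟨u, hu, rfl⟩ := Finset.mem_image.mp hw
      have := h2 u (Finset.mem_filter.mp hu).1
      have := (Finset.mem_filter.mp hu).2
      refine ⟨(u.length + 1) / 2, by omega, ?_⟩
      simp only [List.length_append, List.length_singleton]
      omega
    · intro w hw w' hw' e
      obtain ⟨u, hu, rfl⟩ := Finset.mem_image.mp hw
      obtain ⟨v, hv, rfl⟩ := Finset.mem_image.mp hw'
      simp only [List.map_append, List.prod_append, List.map_singleton, List.prod_singleton,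
        cls_mul_right] at e
      rw [h3 (Finset.mem_filter.mp hu).1 (Finset.mem_filter.mp hv).1 e]

theorem exists_pad (γ : A → G) (a b : A) (hab : γ a * γ b = 1) (w : List A) (s : ℕ) :
    ∃ w' : List A, w'.length = w.length + 2 * s ∧ (w'.map γ).prod = (w.map γ).prod := by
  induction s with
  | zero => exact ⟨w, rfl, rfl⟩
  | succ s ih =>
    obtain ⟨w', h1, h2⟩ := ih
    refine ⟨a :: b :: w', by simp [h1]; ring, ?_⟩
    simp [← mul_assoc, hab, h2]

theorem exists_pow_word (γ : A → G) (u : List A) (i : ℕ) :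
    ∃ w : List A, w.length = i * u.length ∧ (w.map γ).prod = (u.map γ).prod ^ i := by
  induction i with
  | zero => exact ⟨[], by simp, by simp⟩
  | succ i ih =>
    obtain ⟨w, h1, h2⟩ := ih
    exact ⟨w ++ u, by simp [h1]; ring, by simp [h2, pow_succ]⟩

theorem quadratic_growth (γ : A → G) (a b : A) (hab : γ a * γ b = 1) (u : List A)
    (hz : ¬ IsOfFinOrder (u.map γ).prod)
    (h : (Set.range fun w : List A => cls (u.map γ).prod (w.map γ).prod).Infinite) (r : ℕ) :
    ∃ F : Finset G, r ^ 2 ≤ F.card ∧
      ∀ g ∈ F, ∃ w : List A, w.length = 2 * ((u.length + 1) * r) ∧ (w.map γ).prod = g := by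
  classical
  obtain ⟨W, h1, h2, h3⟩ := exists_even_reps γ a _ h r
  set z := (u.map γ).prod with hzdef
  refine ⟨(Finset.range r ×ˢ W).image (fun p => z ^ (2 * p.1) * (p.2.map γ).prod), ?_, ?_⟩
  · rw [Finset.card_image_of_injOn]
    · rw [Finset.card_product, Finset.card_range, sq]
      exact Nat.mul_le_mul_left r h1
    · rintro ⟨i, v⟩ hp ⟨j, v'⟩ hp' e
      simp only [Finset.coe_product, Set.mem_prod, Finset.mem_coe] at hp hp' e
      have e1 : v = v' := by
        apply h3 hp.2 hp'.2
        refine (cls_eq_iff _ _ _).mpr ⟨((2 * j : ℕ) : ℤ) - (2 * i : ℕ), ?_⟩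
        rw [sub_eq_neg_add, zpow_add, zpow_neg, zpow_natCast, zpow_natCast, mul_assoc, ← e]
        simp
      subst e1
      have e2 := injective_pow_iff_not_isOfFinOrder.mpr hz (mul_right_cancel e)
      simp only [Prod.mk.injEq, and_true]
      omega
  · intro g hg
    obtain ⟨⟨i, v⟩, hp, rfl⟩ := Finset.mem_image.mp hg
    simp only [Finset.mem_product, Finset.mem_range] at hp
    obtain ⟨s, hs1, hs2⟩ := h2 v hp.2
    obtain ⟨w1, e1, e2⟩ := exists_pow_word γ u (2 * i)
    have hle : i * u.length + s ≤ (u.length + 1) * r := by nlinarith [hp.1]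
    obtain ⟨t, ht⟩ := Nat.exists_eq_add_of_le hle
    obtain ⟨w2, e3, e4⟩ := exists_pad γ a b hab (w1 ++ v) t
    refine ⟨w2, ?_, by simp [e4, e2, hzdef]⟩
    rw [e3, ht, List.length_append, e1, hs2]
    ring

end Pool.Agent.MP_0946c8_al
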