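import Mathlib

set_option autoImplicit false
set_option linter.unusedSectionVars false

namespace Pool.Agent.MP_0946c8_al

open Finset

theorem seq_decay (u : ℕ → ℝ) (hanti : Antitone u) (h0 : u 0 ≤ 2) (D R : ℕ) (hD : 1 ≤ D)
    (h : ∀ i r : ℕ, 1 ≤ r → r ≤ R → u i ≤ 1 / (r : ℝ) ^ 2 + D * (r : ℝ) ^ 2 * (u i - u (i + 1))) :
    ∀ r : ℕ, 1 ≤ r → r ≤ R → u (8 * D * r ^ 2) ≤ 2 / (r : ℝ) ^ 2 := by
  intro r hr
  induction r, hr using Nat.le_induction with
  | base => intro _; simpa using (hanti (Nat.zero_le _)).trans h0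
  | succ r hr ih =>
    intro hR
    have ih' := ih (by omega)
    by_contra hcon
    rw [not_le] at hcon
    have hr' : (1 : ℝ) ≤ r := by exact_mod_cast hr
    have hD' : (1 : ℝ) ≤ D := by exact_mod_cast hD
    have hstep : ∀ j : ℕ, j ≤ 8 * D * (2 * r + 1) →
        u (8 * D * r ^ 2 + j) + j * (1 / (D * ((r : ℝ) + 1) ^ 4)) ≤ u (8 * D * r ^ 2) := by
      intro j
      induction j with
      | zero => intro _; simp
      | succ j ihj =>
        intro hj
        have a1 := ihj (by omega)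
        have a2 := h (8 * D * r ^ 2 + j) (r + 1) (by omega) hR
        have a3 : u (8 * D * (r + 1) ^ 2) ≤ u (8 * D * r ^ 2 + j) := hanti (by nlinarith)
        push_cast at a2 hcon ⊢
        have a4 : 1 / (D * ((r : ℝ) + 1) ^ 4) ≤
            u (8 * D * r ^ 2 + j) - u (8 * D * r ^ 2 + j + 1) := by
          rw [div_le_iff₀ (by positivity)]
          have a5 : 1 / ((r : ℝ) + 1) ^ 2 ≤
              D * ((r : ℝ) + 1) ^ 2 * (u (8 * D * r ^ 2 + j) - u (8 * D * r ^ 2 + j + 1)) := by
            have : 2 / ((r : ℝ) + 1) ^ 2 = 2 * (1 / ((r : ℝ) + 1) ^ 2) := by ring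
            linarith
          rw [div_le_iff₀ (by positivity)] at a5
          linarith
        rw [← add_assoc]
        linarith
    have a1 := hstep _ le_rfl
    rw [show 8 * D * r ^ 2 + 8 * D * (2 * r + 1) = 8 * D * (r + 1) ^ 2 by ring] at a1
    push_cast at a1 hcon
    have a2 : 8 * (D : ℝ) * (2 * r + 1) * (1 / (D * ((r : ℝ) + 1) ^ 4)) =
        8 * (2 * r + 1) / ((r : ℝ) + 1) ^ 4 := by
      field_simp
    have a3 : 2 / (r : ℝ) ^ 2 ≤ 2 / ((r : ℝ) + 1) ^ 2 + 8 * (2 * r + 1) / ((r : ℝ) + 1) ^ 4 := by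
      rw [div_add_div _ _ (by positivity) (by positivity), div_le_div_iff₀ (by positivity)
        (by positivity)]
      have b1 : (r : ℝ) + 1 ≤ 2 * r := by linarith
      have b2 : ((r : ℝ) + 1) ^ 2 ≤ (2 * r) ^ 2 := by gcongr
      have b3 : 0 ≤ ((r : ℝ) + 1) ^ 2 * (2 * r + 1) * ((2 * r) ^ 2 - ((r : ℝ) + 1) ^ 2) := by
        have : 0 ≤ (2 * (r : ℝ)) ^ 2 - ((r : ℝ) + 1) ^ 2 := by linarith
        positivity
      nlinarith
    linarith

variable {H A : Type} [Group H] [Fintype H] [Fintype A]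

/-- Averaging operator of the random walk. -/
noncomputable def avg (φ : A → H) (f : H → ℝ) : H → ℝ :=
  fun x => (∑ a, f (φ a * x)) / Fintype.card A

/-- Squared displacement of `f` under translation by `g`. -/
def disp (f : H → ℝ) (g : H) : ℝ := ∑ x, (f x - f (g * x)) ^ 2

theorem sum_translate (F : H → ℝ) (g : H) : ∑ x, F (g * x) = ∑ x, F x :=
  Equiv.sum_comp (Equiv.mulLeft g) F

theorem disp_eq (f : H → ℝ) (g : H) :
    disp f g = 2 * (∑ x, f x * f x) - 2 * ∑ x, f x * f (g * x) := by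
  have h := sum_translate (fun x => f x * f x) g
  simp only [disp]
  rw [two_mul (∑ x, f x * f x)]
  nth_rewrite 2 [← h]
  rw [Finset.mul_sum, ← Finset.sum_add_distrib, ← Finset.sum_sub_distrib]
  exact Finset.sum_congr rfl fun x _ => by ring

theorem disp_nonneg (f : H → ℝ) (g : H) : 0 ≤ disp f g :=
  Finset.sum_nonneg fun _ _ => sq_nonneg _

theorem disp_mul (f : H → ℝ) (g h : H) (r : ℝ) :
    r * disp f (g * h) ≤ r * (r + 1) * disp f g + (r + 1) * disp f h := by
  have e := sum_translate (fun x => (f x - f (g * x)) ^ 2) h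
  simp only [disp]
  rw [← e, Finset.mul_sum, Finset.mul_sum, Finset.mul_sum, ← Finset.sum_add_distrib]
  apply Finset.sum_le_sum
  intro x _
  rw [mul_assoc g]
  nlinarith [sq_nonneg (r * (f (h * x) - f (g * (h * x))) - (f x - f (h * x)))]

theorem disp_word (φ : A → H) (f : H → ℝ) (K : ℝ) (hK : ∀ a b, disp f (φ a * φ b) ≤ K) :
    ∀ (r : ℕ) (w : List A), w.length = 2 * r → disp f (w.map φ).prod ≤ (r : ℝ) ^ 2 * K := by
  intro r
  induction r with
  | zero =>
    intro w hw
    obtain rfl : w = [] := List.length_eq_zero_iff.mp hw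
    simp [disp]
  | succ r ih =>
    intro w hw
    match w, hw with
    | a :: b :: w, hw =>
      have hw' : w.length = 2 * r := by simp at hw; omega
      have h1 := ih w hw'
      have h2 := hK a b
      simp only [List.map_cons, List.prod_cons, ← mul_assoc]
      rcases Nat.eq_zero_or_pos r with rfl | hr
      · obtain rfl : w = [] := List.length_eq_zero_iff.mp hw'
        simpa using h2
      · have hr' : (0 : ℝ) < r := by exact_mod_cast hr
        have h3 := disp_mul f (φ a * φ b) (w.map φ).prod r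
        apply le_of_mul_le_mul_left _ hr'
        push_cast
        have h4 : (r : ℝ) * (r + 1) * disp f (φ a * φ b) ≤ r * (r + 1) * K := by gcongr
        have h5 : ((r : ℝ) + 1) * disp f (w.map φ).prod ≤ (r + 1) * ((r : ℝ) ^ 2 * K) := by gcongr
        nlinarith

theorem avg_adj (φ : A → H) (ι : A ≃ A) (hι : ∀ a, φ (ι a) = (φ a)⁻¹) (f g : H → ℝ) :
    ∑ x, avg φ f x * g x = ∑ x, f x * avg φ g x := by
  simp only [avg, div_mul_eq_mul_div, mul_div_assoc', ← Finset.sum_div, Finset.sum_mul,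
    Finset.mul_sum]
  congr 1
  rw [Finset.sum_comm, Finset.sum_comm (f := fun x a => f x * g (φ a * x)),
    ← Equiv.sum_comp ι (fun a => ∑ x, f x * g (φ a * x))]
  apply Finset.sum_congr rfl
  intro a _
  rw [← sum_translate (fun x => f x * g (φ (ι a) * x)) (φ a)]
  simp [hι]

theorem avg_energy [Nonempty A] (φ : A → H) (ι : A ≃ A) (hι : ∀ a, φ (ι a) = (φ a)⁻¹)
    (f : H → ℝ) :
    2 * (Fintype.card A : ℝ) ^ 2 * (∑ x, f x * f x - ∑ x, avg φ f x * avg φ f x) =
      ∑ a, ∑ b, disp f (φ a * φ b) := by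
  have hA : (0 : ℝ) < Fintype.card A := by exact_mod_cast Fintype.card_pos
  rw [avg_adj φ ι hι]
  have e : ∑ x, f x * avg φ (avg φ f) x =
      (∑ a, ∑ b, ∑ x, f x * f (φ a * φ b * x)) / (Fintype.card A : ℝ) ^ 2 := by
    simp only [avg, mul_div_assoc', ← Finset.sum_div, Finset.mul_sum, div_div, mul_assoc]
    rw [← sq]
    congr 1
    rw [Finset.sum_comm, Finset.sum_comm (f := fun a b => ∑ x, f x * f (φ a * (φ b * x)))]
    exact Finset.sum_congr rfl fun b _ => Finset.sum_comm
  rw [e]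
  simp only [disp_eq, Finset.sum_sub_distrib, Finset.sum_const, Finset.card_univ, nsmul_eq_mul,
    ← Finset.mul_sum]
  field_simp

theorem poincare [Nonempty A] (φ : A → H) (ι : A ≃ A) (hι : ∀ a, φ (ι a) = (φ a)⁻¹)
    (f : H → ℝ) (hf : ∀ x, 0 ≤ f x) (hs : ∑ x, f x = 1) (r : ℕ) (T : Finset H)
    (hT : ∀ g ∈ T, ∃ w : List A, w.length = 2 * r ∧ (w.map φ).prod = g) :
    T.card * ∑ x, f x * f x ≤ 1 + T.card * ((r : ℝ) ^ 2 * (Fintype.card A : ℝ) ^ 2 *
      (∑ x, f x * f x - ∑ x, avg φ f x * avg φ f x)) := by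
  set Δ := ∑ x, f x * f x - ∑ x, avg φ f x * avg φ f x with hΔ
  have hK : ∀ a b, disp f (φ a * φ b) ≤ 2 * (Fintype.card A : ℝ) ^ 2 * Δ := by
    intro a b
    rw [hΔ, avg_energy φ ι hι]
    exact le_trans (Finset.single_le_sum (f := fun b => disp f (φ a * φ b))
      (fun b _ => disp_nonneg _ _) (Finset.mem_univ b))
      (Finset.single_le_sum (f := fun a => ∑ b, disp f (φ a * φ b))
        (fun a _ => Finset.sum_nonneg fun b _ => disp_nonneg _ _) (Finset.mem_univ a))
  have h1 : ∀ g ∈ T, ∑ x, f x * f x ≤ ∑ x, f x * f (g * x) +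
      (r : ℝ) ^ 2 * (Fintype.card A : ℝ) ^ 2 * Δ := by
    intro g hg
    obtain ⟨w, hw, rfl⟩ := hT g hg
    have a1 := disp_word φ f _ hK r w hw
    rw [disp_eq] at a1
    linarith
  have h2 : ∑ g ∈ T, ∑ x, f x * f (g * x) ≤ 1 := by
    rw [Finset.sum_comm, ← hs]
    apply Finset.sum_le_sum
    intro x _
    rw [← Finset.mul_sum]
    have a1 : ∑ g ∈ T, f (g * x) ≤ ∑ g, f (g * x) :=
      Finset.sum_le_sum_of_subset_of_nonneg (Finset.subset_univ _) fun g _ _ => hf _
    have a2 : ∑ g, f (g * x) = 1 := by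
      rw [← hs]; exact Equiv.sum_comp (Equiv.mulRight x) f
    calc f x * ∑ g ∈ T, f (g * x) ≤ f x * 1 := mul_le_mul_of_nonneg_left (a2 ▸ a1) (hf x)
      _ = f x := mul_one _
  have h3 := Finset.sum_le_sum h1
  simp only [Finset.sum_const, nsmul_eq_mul, Finset.sum_add_distrib] at h3
  linarith

theorem avg_iterate [Nonempty A] (φ : A → H) (n : ℕ) : ∀ (f : H → ℝ) (x : H),
    (avg φ)^[n] f x =
      (∑ w : Fin n → A, f (((List.ofFn w).map φ).prod * x)) / (Fintype.card A : ℝ) ^ n := by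
  induction n with
  | zero => intro f x; simp
  | succ n ih =>
    intro f x
    rw [Function.iterate_succ_apply, ih, ← (Fin.consEquiv (fun _ => A)).sum_comp,
      Fintype.sum_prod_type, Finset.sum_comm]
    simp only [avg, ← Finset.sum_div, div_div, ← pow_succ']
    congr 1
    apply Finset.sum_congr rfl
    intro w _
    apply Finset.sum_congr rfl
    intro a _
    simp [Fin.consEquiv, List.ofFn_succ, mul_assoc]

open Classical in
theorem return_bound [Nonempty A] (φ : A → H) (ι : A ≃ A) (hι : ∀ a, φ (ι a) = (φ a)⁻¹)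
    (L R : ℕ) (hL : 1 ≤ L)
    (hT : ∀ r, 1 ≤ r → r ≤ R → ∃ T : Finset H, r ^ 2 ≤ T.card ∧
      ∀ g ∈ T, ∃ w : List A, w.length = 2 * (L * r) ∧ (w.map φ).prod = g)
    (r n : ℕ) (hr : 1 ≤ r) (hR : r ≤ R) (hn : 16 * (L * Fintype.card A) ^ 2 * r ^ 2 ≤ n) :
    ((univ.filter (fun w : Fin n → A => ((List.ofFn w).map φ).prod = 1)).card : ℝ) ≤
      2 / (r : ℝ) ^ 2 * (Fintype.card A : ℝ) ^ n := by
  have hA : (0 : ℝ) < Fintype.card A := by exact_mod_cast Fintype.card_pos
  have hA' : 1 ≤ Fintype.card A := Fintype.card_pos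
  let δ : H → ℝ := fun x => if x = 1 then 1 else 0
  let q : ℕ → H → ℝ := fun i => (avg φ)^[i] δ
  have hq : ∀ i, q (i + 1) = avg φ (q i) := fun i => Function.iterate_succ_apply' _ _ _
  have hnn : ∀ i x, 0 ≤ q i x := by
    intro i
    induction i with
    | zero => intro x; simp only [q, δ, Function.iterate_zero, id]; split_ifs <;> norm_num
    | succ i ih =>
      intro x
      rw [hq]
      exact div_nonneg (Finset.sum_nonneg fun a _ => ih _) hA.le
  have hsum : ∀ i, ∑ x, q i x = 1 := by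
    intro i
    induction i with
    | zero => simp [q, δ]
    | succ i ih =>
      rw [hq]
      simp only [avg, ← Finset.sum_div]
      rw [Finset.sum_comm]
      simp only [sum_translate (q i), ih]
      simp
  let u : ℕ → ℝ := fun i => ∑ x, q i x * q i x
  have hanti : Antitone u := by
    apply antitone_nat_of_succ_le
    intro i
    have h1 := avg_energy φ ι hι (q i)
    have h2 : 0 ≤ ∑ a, ∑ b, disp (q i) (φ a * φ b) :=
      Finset.sum_nonneg fun a _ => Finset.sum_nonneg fun b _ => disp_nonneg _ _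
    rw [← h1, ← hq] at h2
    have h3 := nonneg_of_mul_nonneg_right h2 (by positivity)
    simp only [u]
    linarith
  have hdec := seq_decay u hanti (by simp [u, q, δ]) ((L * Fintype.card A) ^ 2) R
    (Nat.one_le_pow _ _ (Nat.mul_pos hL hA')) (by
      intro i s hs1 hs2
      obtain ⟨T, hT1, hT2⟩ := hT s hs1 hs2
      have h1 := poincare φ ι hι (q i) (hnn i) (hsum i) (L * s) T hT2
      rw [← hq] at h1
      have hs' : (0 : ℝ) < (s : ℝ) ^ 2 := by positivity
      have hT' : (s : ℝ) ^ 2 ≤ T.card := by exact_mod_cast hT1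
      have hTpos : (0 : ℝ) < T.card := lt_of_lt_of_le hs' hT'
      have h2 : 1 / (T.card : ℝ) ≤ 1 / (s : ℝ) ^ 2 := one_div_le_one_div_of_le hs' hT'
      have h3 : u i ≤ 1 / (T.card : ℝ) + ((L * s : ℕ) : ℝ) ^ 2 * (Fintype.card A : ℝ) ^ 2 *
          (u i - u (i + 1)) := by
        apply le_of_mul_le_mul_left _ hTpos
        rw [mul_add, mul_one_div_cancel hTpos.ne']
        exact h1
      push_cast at h3 ⊢
      calc u i ≤ _ := h3
        _ ≤ _ := by
          apply add_le_add h2
          apply le_of_eq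
          ring) r hr hR
  have hadj : ∀ i j, ∑ x, q (i + j) x * δ x = ∑ x, q i x * q j x := by
    intro i j
    induction j generalizing i with
    | zero => rfl
    | succ j ih => rw [← add_assoc, add_right_comm, ih (i + 1), hq, avg_adj φ ι hι, ← hq]
  rw [show 16 * (L * Fintype.card A) ^ 2 * r ^ 2 =
    2 * (8 * (L * Fintype.card A) ^ 2 * r ^ 2) by ring] at hn
  set i := 8 * (L * Fintype.card A) ^ 2 * r ^ 2 with hi
  obtain ⟨j, rfl⟩ := Nat.exists_eq_add_of_le (show i ≤ n by omega)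
  have h1 : q (i + j) 1 ≤ 2 / (r : ℝ) ^ 2 := by
    have a1 : q (i + j) 1 = ∑ x, q i x * q j x := by rw [← hadj]; simp [δ]
    have a2 : 2 * ∑ x, q i x * q j x ≤ u i + u j := by
      simp only [u]
      rw [Finset.mul_sum, ← Finset.sum_add_distrib]
      exact Finset.sum_le_sum fun x _ => by nlinarith [sq_nonneg (q i x - q j x)]
    have a3 : u j ≤ u i := hanti (by omega)
    linarith
  simp only [q, avg_iterate, δ, mul_one] at h1
  rw [div_le_iff₀ (by positivity)] at h1
  simpa using h1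

end Pool.Agent.MP_0946c8_al
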