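import Pool.Agent.MP_0946c8_al.Digits

set_option autoImplicit false

namespace Pool.Agent.MP_0946c8_al

open Finset

variable {A : Type} {m : ℕ}

theorem exists_integral_model [Fintype A] (γ : A → GL (Fin m) ℚ) :
    ∃ (N : ℕ) (M : A → Matrix (Fin m) (Fin m) ℤ), 1 ≤ N ∧
      ∀ a, (Int.castRingHom ℚ).mapMatrix (M a) = (N : ℚ) • (γ a : Matrix (Fin m) (Fin m) ℚ) := by
  let N : ℕ := ∏ p : A × Fin m × Fin m, ((γ p.1 : Matrix (Fin m) (Fin m) ℚ) p.2.1 p.2.2).den
  have h : ∀ a i j, ∃ z : ℤ, (z : ℚ) = N * (γ a : Matrix (Fin m) (Fin m) ℚ) i j := by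
    intro a i j
    obtain ⟨c, hc⟩ : ((γ a : Matrix (Fin m) (Fin m) ℚ) i j).den ∣ N :=
      Finset.dvd_prod_of_mem
        (fun p : A × Fin m × Fin m => ((γ p.1 : Matrix (Fin m) (Fin m) ℚ) p.2.1 p.2.2).den)
        (Finset.mem_univ (a, i, j))
    refine ⟨c * ((γ a : Matrix (Fin m) (Fin m) ℚ) i j).num, ?_⟩
    rw [hc]
    push_cast
    rw [← Rat.mul_den_eq_num]
    ring
  choose M hM using h
  refine ⟨N, fun a => Matrix.of (M a), Finset.prod_pos fun p _ => Rat.den_pos _, ?_⟩
  intro a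
  ext i j
  simp [hM]

/-- The defect `∏ M a - N ^ length` of a word. -/
def defect (N : ℕ) (M : A → Matrix (Fin m) (Fin m) ℤ) (w : List A) : Matrix (Fin m) (Fin m) ℤ :=
  (w.map M).prod - ((N : ℤ) ^ w.length) • (1 : Matrix (Fin m) (Fin m) ℤ)

section Model

variable {γ : A → GL (Fin m) ℚ} {N : ℕ} {M : A → Matrix (Fin m) (Fin m) ℤ}

theorem mapMatrix_cast_injective :
    Function.Injective ((Int.castRingHom ℚ).mapMatrix : Matrix (Fin m) (Fin m) ℤ → _) := by
  intro X Y h
  ext i j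
  have := congrFun (congrFun h i) j
  simpa using this

theorem prod_cast
    (hM : ∀ a, (Int.castRingHom ℚ).mapMatrix (M a) = (N : ℚ) • (γ a : Matrix (Fin m) (Fin m) ℚ))
    (w : List A) : (Int.castRingHom ℚ).mapMatrix (w.map M).prod =
      ((N : ℚ) ^ w.length) • (((w.map γ).prod : GL (Fin m) ℚ) : Matrix (Fin m) (Fin m) ℚ) := by
  induction w with
  | nil => simp
  | cons a w ih =>
    rw [List.map_cons, List.prod_cons, map_mul, ih, hM, List.map_cons, List.prod_cons,
      Units.val_mul, smul_mul_smul_comm, List.length_cons, pow_succ']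

theorem cast_smul_one {R : Type} [CommRing R] (s : ℤ) :
    (Int.castRingHom R).mapMatrix (s • (1 : Matrix (Fin m) (Fin m) ℤ)) =
      (s : R) • (1 : Matrix (Fin m) (Fin m) R) := by
  rw [map_zsmul, map_one, Int.cast_smul_eq_zsmul]

theorem defect_eq_zero_iff (hN : 1 ≤ N)
    (hM : ∀ a, (Int.castRingHom ℚ).mapMatrix (M a) = (N : ℚ) • (γ a : Matrix (Fin m) (Fin m) ℚ))
    (w : List A) : defect N M w = 0 ↔ (w.map γ).prod = 1 := by
  have hN' : (N : ℚ) ^ w.length ≠ 0 := by positivity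
  rw [defect, sub_eq_zero, ← mapMatrix_cast_injective.eq_iff, prod_cast hM, cast_smul_one]
  push_cast
  rw [smul_right_inj hN', Units.val_eq_one]

theorem prod_bound (B : ℕ) (hB : ∀ a i, ∑ j, |M a i j| ≤ B) (w : List A) :
    ∀ i j, |(w.map M).prod i j| ≤ (B : ℤ) ^ w.length := by
  induction w with
  | nil =>
    intro i j
    simp only [List.map_nil, List.prod_nil, Matrix.one_apply, List.length_nil, pow_zero]
    split_ifs <;> simp
  | cons a w ih =>
    intro i j
    rw [List.map_cons, List.prod_cons, Matrix.mul_apply, List.length_cons, pow_succ']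
    calc |∑ k, M a i k * (w.map M).prod k j| ≤ ∑ k, |M a i k * (w.map M).prod k j| :=
          Finset.abs_sum_le_sum_abs _ _
      _ ≤ ∑ k, |M a i k| * (B : ℤ) ^ w.length := Finset.sum_le_sum fun k _ => by
          rw [abs_mul]; exact mul_le_mul_of_nonneg_left (ih k j) (abs_nonneg _)
      _ = (∑ k, |M a i k|) * (B : ℤ) ^ w.length := by rw [Finset.sum_mul]
      _ ≤ _ := mul_le_mul_of_nonneg_right (hB a i) (by positivity)

theorem defect_bound (B : ℕ) (hB : ∀ a i, ∑ j, |M a i j| ≤ B) (hNB : N ≤ B) (w : List A)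
    (i j : Fin m) : |defect N M w i j| ≤ 2 * (B : ℤ) ^ w.length := by
  have h1 := prod_bound B hB w i j
  have h2 : (N : ℤ) ^ w.length ≤ (B : ℤ) ^ w.length := by gcongr
  have h3 : (0 : ℤ) ≤ (N : ℤ) ^ w.length := by positivity
  simp only [defect, Matrix.sub_apply, Matrix.smul_apply, Matrix.one_apply, smul_eq_mul]
  rw [abs_le] at h1 ⊢
  split_ifs <;> constructor <;> linarith [h1.1, h1.2]

theorem exists_reduction
    (hM : ∀ a, (Int.castRingHom ℚ).mapMatrix (M a) = (N : ℚ) • (γ a : Matrix (Fin m) (Fin m) ℚ))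
    (ι : A ≃ A) (hι : ∀ a, γ (ι a) = (γ a)⁻¹) (q : ℕ) (hq : Nat.Coprime N q) :
    ∃ φ : A → (Matrix (Fin m) (Fin m) (ZMod q))ˣ, (∀ a, φ (ι a) = (φ a)⁻¹) ∧
      ∀ w : List A, (w.map φ).prod = 1 ↔ ∀ i j, (q : ℤ) ∣ defect N M w i j := by
  let ν : (ZMod q)ˣ := ZMod.unitOfCoprime N hq
  have hν : (ν : ZMod q) = N := rfl
  let ρ := (Int.castRingHom (ZMod q)).mapMatrix (m := Fin m)
  have hmul : ∀ a b, γ a * γ b = 1 → (ν⁻¹ • ρ (M a)) * (ν⁻¹ • ρ (M b)) = 1 := by
    intro a b hab
    have h1 : M a * M b = ((N : ℤ) ^ 2) • (1 : Matrix (Fin m) (Fin m) ℤ) := by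
      apply mapMatrix_cast_injective
      rw [map_mul, hM, hM, smul_mul_smul_comm, ← Units.val_mul, hab, cast_smul_one]
      simp [sq]
    rw [smul_mul_smul_comm, ← map_mul, h1, cast_smul_one]
    push_cast
    rw [← hν, ← Units.val_pow_eq_pow_val, ← Units.smul_def, smul_smul]
    simp [sq, mul_assoc]
  let φ : A → (Matrix (Fin m) (Fin m) (ZMod q))ˣ := fun a =>
    ⟨ν⁻¹ • ρ (M a), ν⁻¹ • ρ (M (ι a)), hmul _ _ (by simp [hι]), hmul _ _ (by simp [hι])⟩
  have hval : ∀ w : List A, (((w.map φ).prod : (Matrix (Fin m) (Fin m) (ZMod q))ˣ) :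
      Matrix (Fin m) (Fin m) (ZMod q)) = (ν⁻¹ ^ w.length) • ρ (w.map M).prod := by
    intro w
    induction w with
    | nil => simp
    | cons a w ih =>
      rw [List.map_cons, List.prod_cons, Units.val_mul, ih, List.map_cons, List.prod_cons, map_mul,
        List.length_cons, pow_succ', ← smul_mul_smul_comm]
  refine ⟨φ, fun a => Units.ext rfl, ?_⟩
  intro w
  rw [← Units.val_eq_one, hval, inv_pow, inv_smul_eq_iff]
  have h1 : (ν ^ w.length) • (1 : Matrix (Fin m) (Fin m) (ZMod q)) =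
      ρ (((N : ℤ) ^ w.length) • (1 : Matrix (Fin m) (Fin m) ℤ)) := by
    rw [cast_smul_one, Units.smul_def]
    simp [hν]
  rw [h1, ← sub_eq_zero, ← map_sub, ← Matrix.ext_iff]
  refine forall_congr' fun i => forall_congr' fun j => ?_
  exact ZMod.intCast_zmod_eq_zero_iff_dvd _ q

end Model

theorem prod_inv_word {H : Type} [Group H] (φ : A → H) (ι : A → A) (hι : ∀ a, φ (ι a) = (φ a)⁻¹)
    (w : List A) : ((w.map ι).reverse.map φ).prod = ((w.map φ).prod)⁻¹ := by
  induction w with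
  | nil => simp
  | cons a w ih => simp only [List.map_cons, List.reverse_cons, List.map_append, List.prod_append,
      ih, List.map_nil, List.prod_cons, List.prod_nil, mul_one, hι, mul_inv_rev]

theorem prod_pow_word {H : Type} [Monoid H] (φ : A → H) (w : List A) (j : ℕ) :
    ((List.replicate j w).flatten.map φ).prod = (w.map φ).prod ^ j := by
  induction j with
  | zero => simp
  | succ j ih =>
    rw [List.replicate_succ, List.flatten_cons, List.map_append, List.prod_append, ih, pow_succ']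

theorem binom_first (s t : ℤ) (Y : Matrix (Fin m) (Fin m) ℤ) (j : ℕ) :
    ∃ Z : Matrix (Fin m) (Fin m) ℤ, (s • (1 : Matrix (Fin m) (Fin m) ℤ) + t • Y) ^ (j + 1) =
      s ^ (j + 1) • (1 : Matrix (Fin m) (Fin m) ℤ) + ((j + 1) * s ^ j * t) • Y + t ^ 2 • Z := by
  induction j with
  | zero => exact ⟨0, by simp⟩
  | succ j ih =>
    obtain ⟨Z, hZ⟩ := ih
    refine ⟨s • Z + ((j + 1) * s ^ j) • (Y * Y) + t • (Z * Y), ?_⟩
    rw [pow_succ _ (j + 1), hZ]
    simp only [add_mul, mul_add, smul_mul_assoc, mul_smul_comm, one_mul, mul_one]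
    push_cast
    module

theorem minkowski_prime (l p : ℕ) (hl : l.Prime) (hp : p.Prime) (s : ℤ) (hs : ¬ (l : ℤ) ∣ s)
    (P : Matrix (Fin m) (Fin m) ℤ) (hP : P ^ p = s ^ p • (1 : Matrix (Fin m) (Fin m) ℤ))
    (h2 : ∀ i j, (l : ℤ) ^ 2 ∣ (P - s • (1 : Matrix (Fin m) (Fin m) ℤ)) i j) :
    P = s • (1 : Matrix (Fin m) (Fin m) ℤ) := by
  have hl' : Prime (l : ℤ) := Nat.prime_iff_prime_int.mp hl
  have key : ∀ a, ∀ i j, (l : ℤ) ^ (a + 2) ∣ (P - s • (1 : Matrix (Fin m) (Fin m) ℤ)) i j := by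
    intro a
    induction a with
    | zero => exact h2
    | succ a ih =>
      choose Y hY using ih
      have hPY : P = s • (1 : Matrix (Fin m) (Fin m) ℤ) + ((l : ℤ) ^ (a + 2)) • Matrix.of Y := by
        ext i j
        have := hY i j
        simp only [Matrix.sub_apply] at this
        simp only [Matrix.add_apply, Matrix.smul_apply, Matrix.of_apply, smul_eq_mul] at this ⊢
        linarith
      obtain ⟨k, rfl⟩ : ∃ k, p = k + 1 := ⟨p - 1, by have := hp.pos; omega⟩
      obtain ⟨Z, hZ⟩ := binom_first s ((l : ℤ) ^ (a + 2)) (Matrix.of Y) k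
      rw [← hPY, hP, add_assoc, left_eq_add] at hZ
      intro i j
      have h3 := congrFun (congrFun hZ i) j
      simp only [Matrix.add_apply, Matrix.smul_apply, Matrix.of_apply, smul_eq_mul,
        Matrix.zero_apply] at h3
      have hne : (l : ℤ) ^ (a + 2) ≠ 0 := pow_ne_zero _ hl'.ne_zero
      have h4 : s ^ k * (((k + 1 : ℕ) : ℤ) * Y i j) = (l : ℤ) ^ 2 * (-(l : ℤ) ^ a * Z i j) := by
        apply mul_left_cancel₀ hne
        push_cast
        linear_combination h3
      have h5 : (l : ℤ) ^ 2 ∣ ((k + 1 : ℕ) : ℤ) * Y i j :=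
        hl'.pow_dvd_of_dvd_mul_left 2 (fun h => hs (hl'.dvd_of_dvd_pow h)) ⟨_, h4⟩
      have h6 : (l : ℤ) ∣ Y i j := by
        by_contra hn
        have h7 : (l : ℤ) ^ 2 ∣ ((k + 1 : ℕ) : ℤ) := hl'.pow_dvd_of_dvd_mul_right 2 hn h5
        have h8 : l ^ 2 ∣ k + 1 := by exact_mod_cast h7
        have h9 := (Nat.dvd_prime hp).mp h8
        have h10 := hl.two_le
        rcases h9 with h9 | h9
        · nlinarith
        · rw [← h9] at hp
          exact Nat.Prime.not_prime_pow (by norm_num) hp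
      rw [hY i j, show a + 1 + 2 = (a + 2) + 1 by ring, pow_succ]
      exact mul_dvd_mul_left _ h6
  rw [← sub_eq_zero]
  ext i j
  by_contra hne
  obtain ⟨a, ha⟩ := pow_unbounded_of_one_lt |(P - s • (1 : Matrix (Fin m) (Fin m) ℤ)) i j|
    (show (1 : ℤ) < l by exact_mod_cast hl.one_lt)
  have h1 := Int.le_of_dvd (abs_pos.mpr hne)
    ((dvd_abs _ _).mpr ((pow_dvd_pow (l : ℤ) (Nat.le_add_right a 2)).trans (key a i j)))
  exact absurd h1 (not_le.mpr ha)

theorem finite_or_infinite_order [Fintype A] (γ : A → GL (Fin m) ℚ) (ι : A ≃ A)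
    (hι : ∀ a, γ (ι a) = (γ a)⁻¹) :
    (Set.range fun w : List A => (w.map γ).prod).Finite ∨
      ∃ u : List A, ¬ IsOfFinOrder (u.map γ).prod := by
  obtain ⟨N, M, hN, hM⟩ := exists_integral_model γ
  obtain ⟨l, hlN, hl⟩ := Nat.exists_infinite_primes (N + 1)
  have hndvd : ¬ l ∣ N := fun h => by have := Nat.le_of_dvd hN h; omega
  have hcop : Nat.Coprime N (l ^ 2) :=
    Nat.Coprime.pow_right _ ((Nat.Prime.coprime_iff_not_dvd hl).mpr hndvd).symm
  obtain ⟨φ, hφ1, hφ2⟩ := exists_reduction hM ι hι (l ^ 2) hcop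
  have : NeZero (l ^ 2) := ⟨pow_ne_zero _ hl.ne_zero⟩
  by_cases h : ∀ w : List A, (w.map φ).prod = 1 → (w.map γ).prod = 1
  · left
    have h1 : ∀ u v : List A, (u.map φ).prod = (v.map φ).prod →
        (u.map γ).prod = (v.map γ).prod := by
      intro u v huv
      have := h (u ++ (v.map ι).reverse) (by
        rw [List.map_append, List.prod_append, prod_inv_word φ ι hφ1, huv, mul_inv_cancel])
      rwa [List.map_append, List.prod_append, prod_inv_word γ ι hι, mul_inv_eq_one] at this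
    classical
    let F : (Matrix (Fin m) (Fin m) (ZMod (l ^ 2)))ˣ → GL (Fin m) ℚ := fun x =>
      if hx : ∃ w : List A, (w.map φ).prod = x then (hx.choose.map γ).prod else 1
    apply (Set.finite_range F).subset
    rintro _ ⟨w, rfl⟩
    have hx : ∃ w' : List A, (w'.map φ).prod = (w.map φ).prod := ⟨w, rfl⟩
    exact ⟨(w.map φ).prod, by simp only [F, dif_pos hx]; exact h1 _ _ hx.choose_spec⟩
  · right
    push Not at h
    obtain ⟨w, hw1, hw2⟩ := h
    refine ⟨w, fun hfin => ?_⟩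
    have ho : orderOf (w.map γ).prod ≠ 1 := fun e => hw2 (orderOf_eq_one_iff.mp e)
    obtain ⟨p, hp, c, hc⟩ := Nat.exists_prime_and_dvd ho
    have hpos := hfin.orderOf_pos
    let w' := (List.replicate c w).flatten
    have e1 : (w'.map φ).prod = 1 := by rw [prod_pow_word, hw1, one_pow]
    have e2 : (w'.map γ).prod = (w.map γ).prod ^ c := prod_pow_word γ w c
    have e3 : (w'.map γ).prod ^ p = 1 := by
      rw [e2, ← pow_mul, mul_comm, ← hc, pow_orderOf_eq_one]
    have e4 : (w'.map γ).prod = 1 := by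
      rw [← defect_eq_zero_iff hN hM, defect, sub_eq_zero]
      apply minkowski_prime l p hl hp
      · intro hd
        exact hndvd (by exact_mod_cast (Nat.prime_iff_prime_int.mp hl).dvd_of_dvd_pow hd)
      · apply mapMatrix_cast_injective
        rw [map_pow, prod_cast hM, smul_pow, ← Units.val_pow_eq_pow_val, e3, cast_smul_one]
        simp
      · intro i j
        have := (hφ2 w').mp e1 i j
        simpa [defect] using this
    rw [e2] at e4
    have h5 := orderOf_dvd_of_pow_eq_one e4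
    have hc0 : 0 < c := by
      rcases Nat.eq_zero_or_pos c with rfl | h
      · omega
      · exact h
    have h6 := Nat.le_of_dvd hc0 h5
    have := hp.two_le
    nlinarith

end Pool.Agent.MP_0946c8_al
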