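import Pool.Agent.Mg.F0946c8.G415c23

set_option autoImplicit false

namespace Pool.Agent.MP_0946c8_al.OldLinearAverage

open Pool.Agent.MP_0946c8_al

/-- The word problem of every finitely generated group of rational matrices, with respect to every
finite generating family, is solved by a multitape Turing machine whose average running time on
all words of length `n` is `O(n)`. -/
theorem result (m : ℕ) (X : Type) [Fintype X] (g : X → GL (Fin m) ℚ) :
    ∃ (Γ Q : Type) (_ : Inhabited Γ) (_ : Finite Γ) (_ : Finite Q) (k : ℕ)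
      (M : MultiTapeTM (X × Bool) Γ Q k) (T : List (X × Bool) → ℕ),
      (∀ w : List (X × Bool), ∃ b : Bool, M.HaltsAt w (T w) b ∧
        (b = true ↔ (w.map (fun a => if a.2 = true then g a.1 else (g a.1)⁻¹)).prod = 1)) ∧
      Asymptotics.IsBigO Filter.atTop
        (fun n : ℕ => (∑ w : Fin n → X × Bool, (T (List.ofFn w) : ℝ)) /
          (2 * (Fintype.card X : ℝ)) ^ n)
        (fun n : ℕ => (n : ℝ)) := by
  obtain ⟨T, ⟨Γ, Q, i1, i2, i3, k, M, h1⟩, h2⟩ :=
    main_theorem (fun a : X × Bool => if a.2 = true then g a.1 else (g a.1)⁻¹)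
      (Equiv.prodCongr (Equiv.refl X) Equiv.boolNot) (by rintro ⟨x, _ | _⟩ <;> simp)
  exact ⟨Γ, Q, i1, i2, i3, k, M, T, h1, by simpa [mul_comm] using h2⟩

end Pool.Agent.MP_0946c8_al.OldLinearAverage
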