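import Pool.Agent.MP_0946c8_al.Defs

set_option autoImplicit false

namespace Pool.Agent.MP_0946c8_al

open Turing

section Reach

variable {A Γ Q : Type} [Inhabited Γ] {k : ℕ} (M : MultiTapeTM A Γ Q k)

/-- `c'` is reached from `c` in `t` steps without passing through a halting state before. -/
def Reach (c c' : Q × (Fin (k + 1) → Tape Γ)) (t : ℕ) : Prop :=
  M.step^[t] c = c' ∧ ∀ s < t, M.answer (M.step^[s] c).1 = none

theorem Reach.refl (c : Q × (Fin (k + 1) → Tape Γ)) : Reach M c c 0 :=
  ⟨rfl, fun _ h => absurd h (Nat.not_lt_zero _)⟩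

variable {M}

theorem Reach.trans {c c' c'' : Q × (Fin (k + 1) → Tape Γ)} {t t' : ℕ}
    (h : Reach M c c' t) (h' : Reach M c' c'' t') : Reach M c c'' (t + t') := by
  refine ⟨by rw [add_comm t, Function.iterate_add_apply, h.1, h'.1], ?_⟩
  intro s hs
  by_cases hst : s < t
  · exact h.2 s hst
  · obtain ⟨u, rfl⟩ := Nat.exists_eq_add_of_le (not_lt.mp hst)
    rw [add_comm t, Function.iterate_add_apply, h.1]
    exact h'.2 u (by omega)

theorem Reach.single {c c' : Q × (Fin (k + 1) → Tape Γ)} (h : M.answer c.1 = none)
    (e : M.step c = c') : Reach M c c' 1 := by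
  refine ⟨e, ?_⟩
  intro s hs
  obtain rfl : s = 0 := by omega
  exact h

theorem Reach.haltsAt {w : List A} {c : Q × (Fin (k + 1) → Tape Γ)} {t : ℕ} {b : Bool}
    (h : Reach M (M.init w) c t) (hb : M.answer c.1 = some b) : M.HaltsAt w t b :=
  ⟨by rw [h.1]; exact hb, h.2⟩

end Reach

section Sweep

variable {A C S : Type}

/-- One left-to-right pass of a finite-state transducer over a list of cells. -/
def pass (tr : S → A → C → S × C) : S → List (A × C) → S × List (A × C)
  | s, [] => (s, [])
  | s, x :: l => ((pass tr (tr s x.1 x.2).1 l).1,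
      (x.1, (tr s x.1 x.2).2) :: (pass tr (tr s x.1 x.2).1 l).2)

theorem pass_length (tr : S → A → C → S × C) (s : S) (l : List (A × C)) :
    (pass tr s l).2.length = l.length := by
  induction l generalizing s with
  | nil => rfl
  | cons x l ih => simp [pass, ih]

/-- Start state and tape content of pass number `i`. -/
def stage (tr : S → A → C → S × C) (s0 s1 : S) (l0 : List (A × C)) : ℕ → S × List (A × C)
  | 0 => (s0, l0)
  | i + 1 => (s1, (pass tr (stage tr s0 s1 l0 i).1 (stage tr s0 s1 l0 i).2).2)

theorem stage_length (tr : S → A → C → S × C) (s0 s1 : S) (l0 : List (A × C)) (i : ℕ) :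
    (stage tr s0 s1 l0 i).2.length = l0.length := by
  induction i with
  | zero => rfl
  | succ i ih => simp [stage, pass_length, ih]

/-- The one-tape machine that repeats passes until `out` gives an answer. -/
def sweepTM (c0 : C) (s0 s1 : S) (tr : S → A → C → S × C) (out : S → Option Bool) :
    MultiTapeTM A (Option (A × C)) (S ⊕ Option Bool) 0 where
  enc a := some (a, c0)
  enc_injective a b h := by simpa using h
  enc_ne_blank a := by simp [default]
  start := Sum.inl s0
  answer q := Sum.elim (fun _ => none) id q
  trans q h :=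
    match q, h 0 with
    | Sum.inl s, some x =>
        (Sum.inl (tr s x.1 x.2).1, fun _ => (some (x.1, (tr s x.1 x.2).2), some Dir.right))
    | Sum.inl s, none => (Sum.inr (out s), fun _ => (none, some Dir.left))
    | Sum.inr _, some x => (Sum.inr none, fun _ => (some x, some Dir.left))
    | Sum.inr _, none => (Sum.inl s1, fun _ => (none, some Dir.right))

variable (c0 : C) (s0 s1 : S) (tr : S → A → C → S × C) (out : S → Option Bool)

theorem sweep_run (l : List (A × C)) : ∀ (s : S) (L : List (A × C)),
    Reach (sweepTM c0 s0 s1 tr out)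
      (Sum.inl s, fun _ => Tape.mk₂ (L.map some) (l.map some))
      (Sum.inl (pass tr s l).1, fun _ => Tape.mk₂ (((pass tr s l).2.reverse ++ L).map some) [])
      l.length := by
  induction l with
  | nil => intro s L; exact Reach.refl _ _
  | cons x l ih =>
    intro s L
    have h1 : Reach (sweepTM c0 s0 s1 tr out)
        (Sum.inl s, fun _ => Tape.mk₂ (L.map some) ((x :: l).map some))
        (Sum.inl (tr s x.1 x.2).1,
          fun _ => Tape.mk₂ (((x.1, (tr s x.1 x.2).2) :: L).map some) (l.map some)) 1 := by
      apply Reach.single rfl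
      simp [MultiTapeTM.step, sweepTM, Tape.mk₂, act]
    have h2 := h1.trans (ih (tr s x.1 x.2).1 ((x.1, (tr s x.1 x.2).2) :: L))
    rw [add_comm 1 l.length] at h2
    simpa [pass] using h2

theorem sweep_end (s : S) (L : List (A × C)) :
    Reach (sweepTM c0 s0 s1 tr out)
      (Sum.inl s, fun _ => Tape.mk₂ (L.map some) [])
      (Sum.inr (out s), fun _ => (Tape.mk₂ (L.map some) []).move Dir.left) 1 := by
  apply Reach.single rfl
  have h : (Tape.mk₂ (L.map some) ([] : List (Option (A × C)))).head = none := rfl
  simp only [MultiTapeTM.step, sweepTM, h, act, Option.elim]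
  rw [← h, Tape.write_self]

theorem sweep_back (L : List (A × C)) : ∀ (R : List (A × C)),
    Reach (sweepTM c0 s0 s1 tr out)
      (Sum.inr none, fun _ => (Tape.mk₂ (L.map some) (R.map some)).move Dir.left)
      (Sum.inl s1, fun _ => Tape.mk₂ [] ((L.reverse ++ R).map some)) (L.length + 1) := by
  induction L with
  | nil =>
    intro R
    apply Reach.single rfl
    have h : ((Tape.mk₂ (([] : List (A × C)).map some) (R.map some)).move Dir.left).head =
        none := rfl
    simp only [MultiTapeTM.step, sweepTM, h, act, Option.elim]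
    rw [← h, Tape.write_self, Tape.move_left_right]
    rfl
  | cons x L ih =>
    intro R
    have h1 : Reach (sweepTM c0 s0 s1 tr out)
        (Sum.inr none, fun _ => (Tape.mk₂ ((x :: L).map some) (R.map some)).move Dir.left)
        (Sum.inr none, fun _ => (Tape.mk₂ (L.map some) ((x :: R).map some)).move Dir.left) 1 := by
      apply Reach.single rfl
      simp [MultiTapeTM.step, sweepTM, Tape.mk₂, act]
    have h2 := h1.trans (ih (x :: R))
    rw [add_comm 1 (L.length + 1)] at h2
    simpa using h2

theorem sweep_stage (w : List A) (p : ℕ)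
    (h : ∀ i < p, out (pass tr (stage tr s0 s1 (w.map (·, c0)) i).1
      (stage tr s0 s1 (w.map (·, c0)) i).2).1 = none) :
    Reach (sweepTM c0 s0 s1 tr out) ((sweepTM c0 s0 s1 tr out).init w)
      (Sum.inl (stage tr s0 s1 (w.map (·, c0)) p).1,
        fun _ => Tape.mk₂ [] ((stage tr s0 s1 (w.map (·, c0)) p).2.map some))
      (p * (2 * w.length + 2)) := by
  induction p with
  | zero =>
    have : (sweepTM c0 s0 s1 tr out).init w = (Sum.inl (stage tr s0 s1 (w.map (·, c0)) 0).1,
        fun _ => Tape.mk₂ [] ((stage tr s0 s1 (w.map (·, c0)) 0).2.map some)) := by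
      refine Prod.ext rfl ?_
      funext i
      have hi : i = 0 := Fin.ext (by omega)
      simp [MultiTapeTM.init, hi, sweepTM, stage, Tape.mk₁, Function.comp_def]
    rw [this, zero_mul]
    exact Reach.refl _ _
  | succ p ih =>
    have h1 := ih (fun i hi => h i (by omega))
    set st := stage tr s0 s1 (w.map (·, c0)) p with hst
    have h2 := sweep_run c0 s0 s1 tr out st.2 st.1 []
    have h3 := sweep_end c0 s0 s1 tr out (pass tr st.1 st.2).1 ((pass tr st.1 st.2).2.reverse ++ [])
    rw [h p (by omega)] at h3
    have h4 := sweep_back c0 s0 s1 tr out ((pass tr st.1 st.2).2.reverse ++ []) []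
    have h5 := ((h1.trans h2).trans h3).trans h4
    have hl : st.2.length = w.length := by rw [hst, stage_length]; simp
    have e : p * (2 * w.length + 2) + st.2.length + 1 +
        (((pass tr st.1 st.2).2.reverse ++ []).length + 1) = (p + 1) * (2 * w.length + 2) := by
      simp only [List.append_nil, List.length_reverse, pass_length, hl]
      ring
    rw [e] at h5
    simpa [stage, ← hst] using h5

theorem sweep_halts (w : List A) (p : ℕ) (b : Bool)
    (h : ∀ i < p, out (pass tr (stage tr s0 s1 (w.map (·, c0)) i).1
      (stage tr s0 s1 (w.map (·, c0)) i).2).1 = none)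
    (hb : out (pass tr (stage tr s0 s1 (w.map (·, c0)) p).1
      (stage tr s0 s1 (w.map (·, c0)) p).2).1 = some b) :
    (sweepTM c0 s0 s1 tr out).HaltsAt w (p * (2 * w.length + 2) + w.length + 1) b := by
  have h1 := sweep_stage c0 s0 s1 tr out w p h
  set st := stage tr s0 s1 (w.map (·, c0)) p with hst
  have h2 := sweep_run c0 s0 s1 tr out st.2 st.1 []
  have h3 := sweep_end c0 s0 s1 tr out (pass tr st.1 st.2).1 ((pass tr st.1 st.2).2.reverse ++ [])
  have hl : st.2.length = w.length := by rw [hst, stage_length]; simp
  have h5 := (h1.trans h2).trans h3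
  rw [hl] at h5
  exact h5.haltsAt hb

end Sweep

end Pool.Agent.MP_0946c8_al
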